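import Pool.Agent.Y152.RP.Stm

/-!
# Project RP: roots of unity of bounded order
-/

set_option autoImplicit false

namespace Pool.Agent.Y759.RP

open Polynomial NumberField IsDedekindDomain Pool.Agent.Y152.RP

theorem bad1_mono {D D' : ℕ} (h : D ≤ D') {s : ℂ} (hs : Bad1 D s) : Bad1 D' s := by
  obtain ⟨G, h1, h2, h3⟩ := hs
  exact ⟨G, h1, h2, fun p hp hD => h3 p hp (lt_of_le_of_lt h hD)⟩

theorem ratCast_mem' (E : IntermediateField ℚ ℂ) (q : ℚ) : (q : ℂ) ∈ E := by
  have := E.algebraMap_mem q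
  rwa [eq_ratCast] at this

/-- a square root outside the field doubles the degree -/
theorem dg_sq {ω τ : ℂ} {q : ℚ} (hq : q ≠ 0) (h : τ ^ 2 = ω * (q : ℂ))
    (hτ : τ ∉ IntermediateField.adjoin ℚ {ω}) : dg τ = 2 * dg (τ ^ 2) := by
  have hqc : (q : ℂ) ≠ 0 := by exact_mod_cast hq
  have e1 : IntermediateField.adjoin ℚ {τ ^ 2} = IntermediateField.adjoin ℚ {ω} := by
    apply le_antisymm
    · rw [IntermediateField.adjoin_simple_le_iff, h]
      exact mul_mem (IntermediateField.mem_adjoin_simple_self ℚ ω) (ratCast_mem' _ q)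
    · rw [IntermediateField.adjoin_simple_le_iff]
      have h1 : ω = τ ^ 2 * ((q⁻¹ : ℚ) : ℂ) := by
        rw [h]
        push_cast
        field_simp
      rw [h1]
      exact mul_mem (IntermediateField.mem_adjoin_simple_self ℚ (τ ^ 2)) (ratCast_mem' _ _)
  unfold dg
  rw [e1]
  set E := IntermediateField.adjoin ℚ {ω} with hE
  have hsq : τ ^ 2 ∈ E := by
    rw [h]
    exact mul_mem (IntermediateField.mem_adjoin_simple_self ℚ ω) (ratCast_mem' _ q)
  have hmon : (X ^ 2 - C (⟨τ ^ 2, hsq⟩ : E)).Monic := monic_X_pow_sub_C _ (by norm_num)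
  have hroot : aeval τ (X ^ 2 - C (⟨τ ^ 2, hsq⟩ : E)) = 0 := by
    rw [map_sub, map_pow, aeval_X, aeval_C]
    exact sub_self _
  have hint : IsIntegral E τ := ⟨_, hmon, by rwa [← aeval_def]⟩
  have hle : (minpoly E τ).natDegree ≤ 2 := by
    have h1 := natDegree_le_of_dvd (minpoly.dvd E τ hroot) hmon.ne_zero
    rwa [natDegree_X_pow_sub_C] at h1
  have hpos := minpoly.natDegree_pos hint
  have hne : (minpoly E τ).natDegree ≠ 1 := by
    intro h1
    rw [minpoly.natDegree_eq_one_iff] at h1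
    obtain ⟨x, hx⟩ := h1
    apply hτ
    rw [← hx]
    exact x.2
  have h2 : Module.finrank E (IntermediateField.adjoin E {τ}) = 2 := by
    rw [IntermediateField.adjoin.finrank hint]
    omega
  have h3 := Module.finrank_mul_finrank ℚ E (IntermediateField.adjoin E {τ})
  have h4 : (IntermediateField.adjoin E {τ}).restrictScalars ℚ =
      IntermediateField.adjoin ℚ {τ} := by
    refine Eq.trans (IntermediateField.adjoin_adjoin_left ℚ {ω} {τ}) ?_
    apply le_antisymm
    · rw [IntermediateField.adjoin_le_iff]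
      rintro x (hx | hx)
      · have h1 : ω = τ ^ 2 * ((q⁻¹ : ℚ) : ℂ) := by
          rw [h]
          push_cast
          field_simp
        rw [Set.mem_singleton_iff] at hx
        rw [hx, h1]
        exact mul_mem (pow_mem (IntermediateField.mem_adjoin_simple_self ℚ τ) 2)
          (ratCast_mem' _ _)
      · rw [Set.mem_singleton_iff] at hx
        rw [hx]
        exact IntermediateField.mem_adjoin_simple_self ℚ τ
    · exact IntermediateField.adjoin.mono ℚ _ _ (by simp)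
  have h5 : Module.finrank ℚ (IntermediateField.adjoin E {τ}) =
      Module.finrank ℚ (IntermediateField.adjoin ℚ {τ}) := by
    rw [← h4]
    rfl
  rw [← h5, ← h3, h2, mul_comm]

/-- the prime factors of the numbers `a i` are `≤ D'` -/
theorem bound_primes (D : ℕ) (a : Fin 3 → ℚ) (ha : ∀ i, a i ≠ 0) : ∃ D' : ℕ, D ≤ D' ∧
    ∀ i, ∀ p : ℕ, p.Prime → D' < p → ¬ (p : ℤ) ∣ (a i).num ∧ ¬ p ∣ (a i).den := by
  refine ⟨D + ∑ i, ((a i).num.natAbs + (a i).den), by omega, fun i p _ hp => ?_⟩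
  have h1 : (a i).num.natAbs + (a i).den ≤ ∑ i, ((a i).num.natAbs + (a i).den) :=
    Finset.single_le_sum (f := fun i => (a i).num.natAbs + (a i).den) (fun _ _ => Nat.zero_le _)
      (Finset.mem_univ i)
  constructor
  · intro h
    have h2 : p ∣ (a i).num.natAbs := Int.natCast_dvd.1 h
    have h3 : 0 < (a i).num.natAbs := Int.natAbs_pos.2 (Rat.num_ne_zero.2 (ha i))
    have h4 := Nat.le_of_dvd h3 h2
    omega
  · intro h
    have h4 := Nat.le_of_dvd (a i).den_pos h
    omega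

theorem exists_field_aux (M : ℕ) (hM : M ≠ 0) : ∃ (K : Type) (_ : Field K) (_ : NumberField K)
    (_ : IsGalois ℚ K) (_φ : K →ₐ[ℚ] ℂ) (ζ : K), IsPrimitiveRoot ζ M := by
  have hM1 : NeZero M := ⟨hM⟩
  have hM2 : NeZero ((M : ℕ) : ℚ) := ⟨by exact_mod_cast hM⟩
  have hc : CharZero (CyclotomicField M ℚ) := inferInstance
  have hcyc : IsCyclotomicExtension {M} ℚ (CyclotomicField M ℚ) := by
    have h1 := CyclotomicField.isCyclotomicExtension M ℚ
    have halg : (CyclotomicField.algebra M ℚ : Algebra ℚ (CyclotomicField M ℚ)) =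
      DivisionRing.toRatAlgebra := Subsingleton.elim _ _
    rw [halg] at h1
    exact h1
  have hnf : NumberField (CyclotomicField M ℚ) := inferInstance
  have hgal : IsGalois ℚ (CyclotomicField M ℚ) :=
    IsCyclotomicExtension.isGalois {M} ℚ _
  exact ⟨CyclotomicField M ℚ, inferInstance, hnf, hgal, IsAlgClosed.lift,
    IsCyclotomicExtension.zeta M ℚ (CyclotomicField M ℚ), IsCyclotomicExtension.zeta_spec M ℚ _⟩

/-- the field and its embedding -/
theorem exists_field (N : ℕ) : ∃ (K : Type) (_ : Field K) (_ : NumberField K) (_ : IsGalois ℚ K)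
    (φ : K →+* ℂ), (∃ z : K, z ^ 2 = -1) ∧ ∀ n : ℕ, 0 < n → n ≤ N → ∀ ω : ℂ,
      IsPrimitiveRoot ω n → ∀ τ ∈ IntermediateField.adjoin ℚ {ω}, ∃ κ : K, φ κ = τ := by
  obtain ⟨K, _, _, _, φ, ζ, hζ⟩ := exists_field_aux (4 * N.factorial) (by positivity)
  refine ⟨K, inferInstance, inferInstance, inferInstance, φ.toRingHom, ?_, ?_⟩
  · refine ⟨ζ ^ N.factorial, ?_⟩
    have h1 : IsPrimitiveRoot (ζ ^ (2 * N.factorial)) 2 :=
      hζ.pow (by positivity) (by ring)
    rw [← pow_mul, mul_comm]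
    exact h1.eq_neg_one_of_two_right
  · intro n hn hnN ω hω τ hτ
    have h1 : IsPrimitiveRoot (φ ζ) (4 * N.factorial) :=
      hζ.map_of_injective φ.toRingHom.injective
    have h2 : ω ^ (4 * N.factorial) = 1 := by
      obtain ⟨c, hc⟩ := Nat.dvd_factorial hn hnN
      rw [hc, mul_left_comm, pow_mul, hω.pow_eq_one, one_pow]
    have hM3 : NeZero (4 * N.factorial) := ⟨by positivity⟩
    obtain ⟨i, -, hi⟩ := h1.eq_pow_of_pow_eq_one h2
    have h3 : IntermediateField.adjoin ℚ {ω} ≤ φ.fieldRange := by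
      rw [IntermediateField.adjoin_simple_le_iff]
      refine ⟨ζ ^ i, ?_⟩
      rw [← hi]
      exact map_pow φ ζ i
    obtain ⟨κ, hκ⟩ := h3 hτ
    exact ⟨κ, hκ⟩

theorem roots_finite {e : ℕ} (he : 0 < e) (c : ℂ) : {t : ℂ | t ^ e = c}.Finite := by
  apply Set.Finite.subset (Multiset.toFinset (nthRoots e c)).finite_toSet
  intro t ht
  rw [Finset.mem_coe, Multiset.mem_toFinset, mem_nthRoots he]
  exact ht

/-- roots of unity of bounded order -/
theorem small : FinAStm → FinBStm → UnitStm → ExpStm → SmallStm := by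
  intro hA hB hU hE D N a ha hab
  obtain ⟨D', hDD, hD'⟩ := bound_primes D a ha
  obtain ⟨K, _, _, _, φ, hz, hφ⟩ := exists_field N
  have hfB := hB K hz D' a ha hab hD'
  have hfA := fun e : ℕ => hA K hz D' a ha hab hD' e
  have hbig : (⋃ e ∈ {e : ℕ | ∃ κ : K, Sol K D' a e κ}, ⋃ κ ∈ {κ : K | Sol K D' a e κ},
      {t : ℂ | t ^ e = φ κ}).Finite := by
    refine hfB.biUnion fun e _ => (hfA e).biUnion fun κ hκ => ?_
    exact roots_finite hκ.1 _
  refine hbig.subset ?_
  rintro t ⟨ht0, ⟨f, hf, ⟨n, hn, hnN, ω, hω, q, hq, hτ⟩, hdg⟩, hbad⟩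
  have halg : IsAlgebraic ℚ t := by
    have h1 : t ^ (f * (2 * n)) = ((q ^ n : ℚ) : ℂ) := by
      rw [pow_mul, pow_mul, hτ, mul_pow, hω.pow_eq_one, one_mul]
      push_cast
      rfl
    refine ⟨X ^ (f * (2 * n)) - C (q ^ n), ?_, ?_⟩
    · exact (monic_X_pow_sub_C _ (by positivity)).ne_zero
    · rw [map_sub, map_pow, aeval_X, aeval_C, h1, eq_ratCast, sub_self]
  obtain ⟨F, hF, κ, hκ, hdF⟩ : ∃ F : ℕ, 0 < F ∧ ∃ κ : K, φ κ = t ^ F ∧
      dg t = F * dg (t ^ F) := by
    by_cases hin : t ^ f ∈ IntermediateField.adjoin ℚ {ω}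
    · obtain ⟨κ, hκ⟩ := hφ n hn hnN ω hω _ hin
      exact ⟨f, hf, κ, hκ, hdg⟩
    · have h1 : (t ^ f) ^ 2 ∈ IntermediateField.adjoin ℚ {ω} := by
        rw [hτ]
        exact mul_mem (IntermediateField.mem_adjoin_simple_self ℚ ω) (ratCast_mem' _ q)
      obtain ⟨κ, hκ⟩ := hφ n hn hnN ω hω _ h1
      refine ⟨f * 2, by omega, κ, ?_, ?_⟩
      · rw [hκ, pow_mul]
      · rw [hdg, dg_sq hq.ne' hτ hin, pow_mul]
        ring
  have hκ0 : κ ≠ 0 := by
    rintro rfl
    rw [map_zero] at hκ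
    exact pow_ne_zero F ht0 hκ.symm
  have hsol : Sol K D' a F κ := by
    refine ⟨hF, hκ0, fun i w hw => ?_⟩
    have h1 := hE D' t (a i) F hF (ha i) halg hdF (bad1_mono hDD (hbad i))
    have h2 : t ^ F / (a i : ℂ) ^ F = φ κ / (((a i) ^ F : ℚ) : ℂ) := by
      rw [hκ]
      push_cast
      rfl
    rw [h2] at h1
    have h3 := hU K φ D' κ ((a i) ^ F) (fun p hp hpD => by
      obtain ⟨h4, h5⟩ := hD' i p hp hpD
      constructor
      · rw [Rat.num_pow]
        intro h6
        exact h4 ((Nat.prime_iff_prime_int.1 hp).dvd_of_dvd_pow h6)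
      · rw [Rat.den_pow]
        intro h6
        exact h5 (hp.dvd_of_dvd_pow h6)) h1 w hw
    rw [Rat.cast_pow] at h3
    exact h3
  rw [Set.mem_iUnion₂]
  refine ⟨F, ⟨κ, hsol⟩, ?_⟩
  rw [Set.mem_iUnion₂]
  exact ⟨κ, hsol, hκ.symm⟩

end Pool.Agent.Y759.RP
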